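import Pool.Agent.W203.SP.Stm

set_option autoImplicit false

namespace Pool.Agent.W741.SP

open MeasureTheory Set Complex Filter
open scoped ENNReal NNReal FourierTransform RealInnerProductSpace ContDiff
open Pool.Agent.W203.SP

lemma gq_pos (η : ℝ → ℂ) {q : ℝ} (h : 0 < q) : gq η q = 2 * q * η (q ^ 2) := by
  simp [gq, h]

lemma gq_zero {η : ℝ → ℂ} {a b : ℝ} (ha : 0 < a) (h : ∀ p, p ∉ Icc a b → η p = 0) {q : ℝ}
    (hq : q < Real.sqrt a) : gq η q = 0 := by
  unfold gq
  split_ifs with h0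
  · have h1 : q ^ 2 < a := by
      have := Real.lt_sqrt h0.le |>.1 hq
      exact this
    rw [h _ (fun h2 => absurd h2.1 (not_le.mpr h1)), mul_zero]
  · rfl

theorem t_K5 : S_K5 := by
  intro η hη
  obtain ⟨hs, a, b, ha, hab, h0⟩ := hη
  have hsa : 0 < Real.sqrt a := Real.sqrt_pos.mpr ha
  refine ⟨⟨?_, ?_⟩, ?_⟩
  · rw [contDiff_iff_contDiffAt]
    intro q
    by_cases hq : 0 < q
    · have h1 : ContDiff ℝ ∞ (fun q : ℝ => (2 : ℂ) * (q : ℂ) * η (q ^ 2)) := by
        have h2 : ContDiff ℝ ∞ (fun q : ℝ => (q : ℂ)) := Complex.ofRealCLM.contDiff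
        have h3 : ContDiff ℝ ∞ (fun q : ℝ => η (q ^ 2)) :=
          hs.comp (contDiff_id.pow 2)
        exact (contDiff_const.mul h2).mul h3
      refine h1.contDiffAt.congr_of_eventuallyEq ?_
      filter_upwards [Ioi_mem_nhds hq] with y hy
      exact gq_pos η hy
    · refine (contDiffAt_const (c := (0 : ℂ))).congr_of_eventuallyEq ?_
      filter_upwards [Iio_mem_nhds (show q < Real.sqrt a by linarith [not_lt.mp hq])] with y hy
      exact gq_zero ha h0 hy
  · refine HasCompactSupport.intro (K := Icc 0 (Real.sqrt b)) isCompact_Icc ?_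
    intro q hq
    unfold gq
    split_ifs with h1
    · have h2 : Real.sqrt b < q := by
        by_contra h3
        exact hq ⟨h1.le, not_lt.mp h3⟩
      have h3 : b < q ^ 2 := (Real.sqrt_lt' h1).1 h2
      rw [h0 _ (fun h4 => absurd h4.2 (not_le.mpr h3)), mul_zero]
    · rfl
  · intro t r
    unfold kap
    have e1 : ∫ p, η p * ee (t * Real.sqrt p - r * p) =
        ∫ p in Ioi (0 : ℝ), η p * ee (t * Real.sqrt p - r * p) := by
      refine (setIntegral_eq_integral_of_forall_compl_eq_zero ?_).symm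
      intro p hp
      have hp0 : p ≤ 0 := not_lt.mp hp
      rw [h0 p (fun h => absurd h.1 (not_le.mpr (lt_of_le_of_lt hp0 ha))), zero_mul]
    have e2 : ∫ q, gq η q * ee (t * q - r * q ^ 2) =
        ∫ q in Ioi (0 : ℝ), gq η q * ee (t * q - r * q ^ 2) := by
      refine (setIntegral_eq_integral_of_forall_compl_eq_zero ?_).symm
      intro q hq
      have hq0 : q ≤ 0 := not_lt.mp hq
      rw [gq_zero ha h0 (lt_of_le_of_lt hq0 hsa), zero_mul]
    rw [e1, e2]
    have himg : (fun q : ℝ => q ^ 2) '' Ioi (0 : ℝ) = Ioi 0 := by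
      ext p
      constructor
      · rintro ⟨q, hq, rfl⟩
        exact pow_pos (show (0 : ℝ) < q from hq) 2
      · intro hp
        exact ⟨Real.sqrt p, Real.sqrt_pos.mpr hp, Real.sq_sqrt (le_of_lt hp)⟩
    have hinj : InjOn (fun q : ℝ => q ^ 2) (Ioi (0 : ℝ)) := by
      intro x hx y hy hxy
      exact (pow_left_inj₀ (le_of_lt hx) (le_of_lt hy) (by norm_num)).1 hxy
    have key := integral_image_eq_integral_abs_deriv_smul (s := Ioi (0 : ℝ))
      (f := fun q : ℝ => q ^ 2) (f' := fun q : ℝ => 2 * q) measurableSet_Ioi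
      (fun x _ => by
        have := (hasDerivAt_pow 2 x).hasDerivWithinAt (s := Ioi (0 : ℝ))
        simpa using this)
      hinj (fun p => η p * ee (t * Real.sqrt p - r * p))
    rw [himg] at key
    rw [key]
    refine setIntegral_congr_fun measurableSet_Ioi ?_
    intro q hq
    have hq' : (0 : ℝ) < q := hq
    show |2 * q| • (η (q ^ 2) * ee (t * Real.sqrt (q ^ 2) - r * q ^ 2)) =
      gq η q * ee (t * q - r * q ^ 2)
    rw [gq_pos η hq', Real.sqrt_sq hq'.le, abs_of_pos (by linarith : (0 : ℝ) < 2 * q),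
      Complex.real_smul]
    push_cast
    ring

end Pool.Agent.W741.SP
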